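import Pool.Agent.Y166.GM.Strata

/-!
# Families of polynomials without common zeros on the projective line: an open condition
-/

set_option autoImplicit false
set_option linter.unusedSectionVars false
set_option linter.deprecated false

namespace Pool.Agent.Y762.MC

open Polynomial Pool.Agent.Y166.GM

section
variable {k : Type} [Field k]

/-- The forms of degree `n` with the affine polynomials `f i` have no common zero on the projective
line. -/
def NZ {σ : Type} (n : ℕ) (f : σ → k[X]) : Prop :=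
  (∀ t : k, ∃ i, (f i).eval t ≠ 0) ∧ ∃ i, (f i).coeff n ≠ 0

theorem exists_beta [Infinite k] {σ : Type} [Fintype σ] [DecidableEq σ] (R : Finset k)
    (f : σ → k[X]) (h : ∀ t ∈ R, ∃ i, (f i).eval t ≠ 0) :
    ∃ β : σ → k, ∀ t ∈ R, (∑ i, C (β i) * f i).eval t ≠ 0 := by
  let P : MvPolynomial σ k := ∏ t ∈ R, ∑ i, MvPolynomial.C ((f i).eval t) * MvPolynomial.X i
  have hP : P ≠ 0 := by
    rw [Finset.prod_ne_zero_iff]
    intro t ht h0
    obtain ⟨i, hi⟩ := h t ht
    apply hi
    have := congrArg (MvPolynomial.eval (Pi.single i (1 : k))) h0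
    simpa [map_sum, Pi.single_apply] using this
  have h1 : ∃ β, MvPolynomial.eval β P ≠ 0 := by
    by_contra hcon
    push Not at hcon
    apply hP
    apply MvPolynomial.funext
    intro β
    rw [hcon, map_zero]
  obtain ⟨β, hβ⟩ := h1
  refine ⟨β, fun t ht h0 => hβ ?_⟩
  rw [map_prod]
  apply Finset.prod_eq_zero ht
  rw [map_sum, ← h0, Polynomial.eval_finset_sum]
  refine Finset.sum_congr rfl fun i _ => ?_
  rw [map_mul, MvPolynomial.eval_C, MvPolynomial.eval_X, Polynomial.eval_mul, Polynomial.eval_C,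
    mul_comm]

theorem exists_syz {n : ℕ} (hn : 1 ≤ n) (F G : k[X]) (hF : F.natDegree ≤ n) (hG : G.natDegree ≤ n)
    (h : (∃ t, F.eval t = 0 ∧ G.eval t = 0) ∨ (F.coeff n = 0 ∧ G.coeff n = 0)) :
    ∃ A B : k[X], A.natDegree ≤ n - 1 ∧ B.natDegree ≤ n - 1 ∧ (A ≠ 0 ∨ B ≠ 0) ∧
      A * F + B * G = 0 := by
  by_cases h0 : F = 0 ∧ G = 0
  · refine ⟨1, 0, by simp, by simp, Or.inl one_ne_zero, ?_⟩
    rw [h0.1, h0.2]
    ring
  have h0' : G ≠ 0 ∨ -F ≠ 0 := by
    by_contra hcon
    push Not at hcon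
    exact h0 ⟨neg_eq_zero.1 hcon.2, hcon.1⟩
  rcases h with ⟨t, ht, ht'⟩ | ⟨h1, h2⟩
  · obtain ⟨F', hF'⟩ := Polynomial.dvd_iff_isRoot.2 ht
    obtain ⟨G', hG'⟩ := Polynomial.dvd_iff_isRoot.2 ht'
    have hd : ∀ p : k[X], ((X - C t) * p).natDegree ≤ n → p.natDegree ≤ n - 1 := by
      intro p hp
      by_cases hp0 : p = 0
      · rw [hp0, Polynomial.natDegree_zero]
        exact Nat.zero_le _
      · rw [Polynomial.natDegree_mul (Polynomial.X_sub_C_ne_zero t) hp0,
          Polynomial.natDegree_X_sub_C] at hp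
        omega
    refine ⟨G', -F', hd _ (hG' ▸ hG), ?_, ?_, ?_⟩
    · rw [Polynomial.natDegree_neg]
      exact hd _ (hF' ▸ hF)
    · rcases h0' with h | h
      · left
        rintro rfl
        apply h
        rw [hG', mul_zero]
      · right
        intro h3
        apply h
        rw [neg_eq_zero] at h3 ⊢
        rw [hF', h3, mul_zero]
    · rw [hF', hG']
      ring
  · have hd : ∀ p : k[X], p.natDegree ≤ n → p.coeff n = 0 → p.natDegree ≤ n - 1 := by
      intro p hp hp0
      by_contra hcon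
      have h3 : p.natDegree = n := by omega
      have h4 : p.leadingCoeff = 0 := by
        rw [Polynomial.leadingCoeff, h3, hp0]
      rw [Polynomial.leadingCoeff_eq_zero] at h4
      rw [h4, Polynomial.natDegree_zero] at h3
      omega
    refine ⟨G, -F, hd _ hG h2, ?_, h0', by ring⟩
    rw [Polynomial.natDegree_neg]
    exact hd _ hF h1

/-- The polynomial of a row of coefficients. -/
noncomputable def pl {σ : Type} (n : ℕ) (i : σ) : (σ × Fin (n + 1) → k) →ₗ[k] k[X] where
  toFun v := pol fun l => v (i, l)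
  map_add' v w := pol_add _ _
  map_smul' a v := by
    rw [RingHom.id_apply, Polynomial.smul_eq_C_mul]
    exact pol_smul _ _

theorem pl_coeff {σ : Type} {n : ℕ} (g : σ → k[X]) (i : σ) (hg : (g i).natDegree ≤ n) :
    pl n i (fun x => (g x.1).coeff x.2) = g i := by
  have h1 : pl n i (fun x => (g x.1).coeff x.2) = pol fun l : Fin (n + 1) => (g i).coeff l := rfl
  rw [h1]
  exact pol_coeff_self (g i) hg

/-- A linear combination of the rows. -/
noncomputable def plG {σ : Type} [Fintype σ] (n : ℕ) (β : σ → k) :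
    (σ × Fin (n + 1) → k) →ₗ[k] k[X] := ∑ i, β i • pl n i

theorem plG_coeff {σ : Type} [Fintype σ] {n : ℕ} (β : σ → k) (g : σ → k[X])
    (hg : ∀ i, (g i).natDegree ≤ n) :
    plG n β (fun x => (g x.1).coeff x.2) = ∑ i, C (β i) * g i := by
  unfold plG
  rw [LinearMap.sum_apply]
  refine Finset.sum_congr rfl fun i _ => ?_
  rw [LinearMap.smul_apply, pl_coeff g i (hg i), Polynomial.smul_eq_C_mul]

/-- The condition that a family of forms has no common zero is open. -/
theorem open_cond [IsAlgClosed k] {σ : Type} [Fintype σ] [DecidableEq σ] {n : ℕ} (hn : 1 ≤ n)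
    (f : σ → k[X]) (hf : ∀ i, (f i).natDegree ≤ n) (h : NZ n f) :
    ∃ (m : ℕ) (P : MvPolynomial (σ × Fin (n + 1)) k), P.IsHomogeneous m ∧
      MvPolynomial.eval (fun x => (f x.1).coeff x.2) P ≠ 0 ∧
      ∀ g : σ → k[X], (∀ i, (g i).natDegree ≤ n) → ¬ NZ n g →
        MvPolynomial.eval (fun x => (g x.1).coeff x.2) P = 0 := by
  classical
  have hinf : Infinite k := IsAlgClosed.instInfinite
  obtain ⟨h1, i0, hi0⟩ := h
  have hdeg : (f i0).natDegree = n :=
    le_antisymm (hf i0) (Polynomial.le_natDegree_of_ne_zero hi0)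
  have hf0 : f i0 ≠ 0 := by
    intro h0
    rw [h0, Polynomial.coeff_zero] at hi0
    exact hi0 rfl
  obtain ⟨β, hβ⟩ := exists_beta (f i0).roots.toFinset f (fun t _ => h1 t)
  have hcop : IsCoprime (f i0) (∑ i, C (β i) * f i) := by
    rw [Polynomial.isCoprime_iff_aeval_ne_zero_of_isAlgClosed k k]
    intro a
    rw [Polynomial.coe_aeval_eq_eval]
    by_cases ha : (f i0).eval a = 0
    · right
      exact hβ a (by
        rw [Multiset.mem_toFinset, Polynomial.mem_roots hf0]
        exact ha)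
    · exact Or.inl ha
  have hinj : ∀ A B : k[X], A.natDegree ≤ n - 1 → B.natDegree ≤ n - 1 →
      A * pl n i0 (fun x => (f x.1).coeff x.2) + B * plG n β (fun x => (f x.1).coeff x.2) = 0 →
      A = 0 ∧ B = 0 := by
    intro A B hA hB hAB
    rw [pl_coeff f i0 (hf i0), plG_coeff β f hf] at hAB
    have h4 : f i0 ∣ B * ∑ i, C (β i) * f i := by
      refine ⟨-A, ?_⟩
      linear_combination hAB
    have h5 : f i0 ∣ B := hcop.dvd_of_dvd_mul_right h4
    have h6 : B = 0 := by
      by_contra hB0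
      have := Polynomial.natDegree_le_of_dvd h5 hB0
      omega
    rw [h6, zero_mul, add_zero] at hAB
    rcases mul_eq_zero.1 hAB with h7 | h7
    · exact ⟨h7, h6⟩
    · exact absurd h7 hf0
  obtain ⟨m, P, hP, h2, h3⟩ := sepPair (pl n i0) (plG n β) (n - 1) (n - 1)
    (fun x => (f x.1).coeff x.2) hinj
  refine ⟨m, P, hP, h2, fun g hg hng => h3 _ ?_⟩
  rw [pl_coeff g i0 (hg i0), plG_coeff β g hg]
  apply exists_syz hn _ _ (hg i0)
  · refine Polynomial.natDegree_sum_le_of_forall_le _ _ fun j _ => ?_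
    exact (Polynomial.natDegree_C_mul_le _ _).trans (hg j)
  · unfold NZ at hng
    rw [not_and_or] at hng
    push Not at hng
    rcases hng with ⟨t, ht⟩ | hc
    · refine Or.inl ⟨t, ht i0, ?_⟩
      rw [Polynomial.eval_finset_sum]
      refine Finset.sum_eq_zero fun i _ => ?_
      rw [Polynomial.eval_mul, ht i, mul_zero]
    · refine Or.inr ⟨hc i0, ?_⟩
      rw [Polynomial.finset_sum_coeff]
      refine Finset.sum_eq_zero fun i _ => ?_
      rw [Polynomial.coeff_C_mul, hc i, mul_zero]

end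

end Pool.Agent.Y762.MC
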