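import Pool.Agent.Y762.MC.Alg
import Pool.Agent.Y762.MC.Open

/-!
# Degenerations of the splitting type
-/

set_option autoImplicit false
set_option linter.unusedSectionVars false
set_option linter.deprecated false

namespace Pool.Agent.Y762.MC

open Pool.Agent.Y198.MC Pool.Agent.Y166.GM Polynomial

section
variable {A : Type} [CommRing A] {N : ℕ}

/-- The first correction. -/
noncomputable def fw (a b : ℕ) (v : Fin N → A[X]) : Fin N → A[X] :=
  fun i => -(C ((v i).coeff b) * X ^ (a + 1))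

/-- The second vector without its leading term. -/
noncomputable def fy (b : ℕ) (v : Fin N → A[X]) : Fin N → A[X] :=
  fun i => v i - C ((v i).coeff b) * X ^ b

/-- The first vector of the family. -/
noncomputable def fX (e : A) (a b : ℕ) (u v : Fin N → A[X]) : Fin N → A[X] :=
  fun i => u i + C e * fw a b v i

/-- The second vector of the family. -/
noncomputable def fZ (e : A) (b ρ : ℕ) (u v : Fin N → A[X]) : Fin N → A[X] :=
  fun i => X ^ ρ * u i + C e * fy b v i

/-- The Plücker coordinates of the family, divided by `e`. -/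
noncomputable def fl (e : A) (a b : ℕ) (u v : Fin N → A[X]) : Sg N → A[X] :=
  fun s => wdg u v s + C e * wdg (fw a b v) (fy b v) s

/-- The tensors of the family. -/
noncomputable def fg (e : A) (a b ρ : ℕ) (u v : Fin N → A[X]) (p : Fin 4 → A[X])
    (r : Fin 3 → A[X]) (z : Fin 2 → A[X]) (c3 : A[X]) : Ta N → A[X] :=
  Gx (fX e a b u v) (fZ e b ρ u v) v p r z c3

theorem map_fl {B : Type} [CommRing B] (φ : A →+* B) (e : A) (a b : ℕ) (u v : Fin N → A[X])
    (s : Sg N) : (fl e a b u v s).map φ =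
      fl (φ e) a b (fun i => (u i).map φ) (fun i => (v i).map φ) s := by
  simp [fl, wdg, fw, fy]

theorem map_fg {B : Type} [CommRing B] (φ : A →+* B) (e : A) (a b ρ : ℕ) (u v : Fin N → A[X])
    (p : Fin 4 → A[X]) (r : Fin 3 → A[X]) (z : Fin 2 → A[X]) (c3 : A[X]) (s : Ta N) :
    (fg e a b ρ u v p r z c3 s).map φ =
      fg (φ e) a b ρ (fun i => (u i).map φ) (fun i => (v i).map φ) (fun i => (p i).map φ)
        (fun i => (r i).map φ) (fun i => (z i).map φ) (c3.map φ) s := by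
  simp [fg, Gx, S3, fX, fZ, fw, fy]

/-- The degree of `f` is at most `d - S`, or `f = 0`. -/
def LE (S d : ℕ) (f : A[X]) : Prop := f ≠ 0 → f.natDegree + S ≤ d

theorem LE.add {S d : ℕ} {f g : A[X]} (hf : LE S d f) (hg : LE S d g) : LE S d (f + g) := by
  intro h
  by_cases h1 : f = 0
  · rw [h1, zero_add] at h ⊢
    exact hg h
  by_cases h2 : g = 0
  · rw [h2, add_zero] at h ⊢
    exact hf h
  have h3 := Polynomial.natDegree_add_le f g
  have h4 := hf h1
  have h5 := hg h2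
  omega

theorem LE.neg {S d : ℕ} {f : A[X]} (hf : LE S d f) : LE S d (-f) := by
  intro h
  rw [Polynomial.natDegree_neg]
  exact hf (fun h0 => h (by rw [h0, neg_zero]))

theorem LE.sub {S d : ℕ} {f g : A[X]} (hf : LE S d f) (hg : LE S d g) : LE S d (f - g) := by
  rw [sub_eq_add_neg]
  exact hf.add hg.neg

theorem LE.cmul {S d : ℕ} {f : A[X]} (hf : LE S d f) {g : A[X]} (hg : g.natDegree = 0) :
    LE S d (g * f) := by
  intro h
  have h1 := hf (right_ne_zero_of_mul h)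
  have h2 := Polynomial.natDegree_mul_le (p := g) (q := f)
  omega

theorem LE.xmul {S S' d : ℕ} {f : A[X]} (hf : LE S' d f) (j : ℕ) (hj : S + j ≤ S') :
    LE S d (X ^ j * f) := by
  intro h
  have h1 := hf (right_ne_zero_of_mul h)
  have h2 := Polynomial.natDegree_mul_le (p := (X ^ j : A[X])) (q := f)
  have h3 := Polynomial.natDegree_X_pow_le (R := A) j
  omega

theorem LE.mono {S S' d : ℕ} {f : A[X]} (hf : LE S' d f) (hj : S ≤ S') : LE S d f := by
  intro h
  have h1 := hf h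
  omega

end

section
variable {k : Type} [Field k]

theorem div1 (p : k[X]) {ρ : ℕ} (hρ : 1 ≤ ρ) : ∃ q r : k[X], p = r + X ^ ρ * q ∧
    r.natDegree + 1 ≤ ρ ∧ ∀ S d, LE S d p → LE (S + ρ) d q := by
  have hm : (X ^ ρ : k[X]).Monic := Polynomial.monic_X_pow ρ
  refine ⟨p /ₘ X ^ ρ, p %ₘ X ^ ρ, (Polynomial.modByMonic_add_div p (X ^ ρ)).symm, ?_, ?_⟩
  · have := Polynomial.natDegree_modByMonic_lt p hm (by
      intro h
      have := congrArg Polynomial.natDegree h
      rw [Polynomial.natDegree_X_pow, Polynomial.natDegree_one] at this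
      omega)
    rw [Polynomial.natDegree_X_pow] at this
    exact this
  · intro S d hp hq
    have h1 := Polynomial.natDegree_divByMonic p hm
    rw [Polynomial.natDegree_X_pow] at h1
    have h2 : ρ ≤ p.natDegree := by
      by_contra hcon
      apply hq
      rw [Polynomial.divByMonic_eq_zero_iff hm]
      apply Polynomial.degree_lt_degree
      rw [Polynomial.natDegree_X_pow]
      omega
    have h3 := hp (by
      rintro rfl
      rw [Polynomial.natDegree_zero] at h2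
      omega)
    omega

theorem nd3 (e : k) : (3 * (C e) ^ 2 : k[X]).natDegree = 0 := by
  rw [show (3 * (C e) ^ 2 : k[X]) = C (3 * e ^ 2) by rw [C_mul, C_pow, map_ofNat],
    Polynomial.natDegree_C]

theorem nd1 (e : k) : (3 * (C e) : k[X]).natDegree = 0 := by
  rw [show (3 * (C e) : k[X]) = C (3 * e) by rw [C_mul, map_ofNat], Polynomial.natDegree_C]

theorem nd0 (e : k) : ((C e) ^ 3 : k[X]).natDegree = 0 := by
  rw [← C_pow, Polynomial.natDegree_C]

theorem natDegree_fy {N b : ℕ} {v : Fin N → k[X]} (hb : 1 ≤ b) (hv : ∀ i, (v i).natDegree ≤ b)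
    (i : Fin N) : (fy b v i).natDegree ≤ b - 1 := by
  rw [Polynomial.natDegree_le_iff_coeff_eq_zero]
  intro n hn
  unfold fy
  rw [Polynomial.coeff_sub, Polynomial.coeff_C_mul_X_pow]
  by_cases h : n = b
  · rw [if_pos h, h, sub_self]
  · rw [if_neg h, sub_zero]
    exact Polynomial.coeff_eq_zero_of_natDegree_lt (by have := hv i; omega)

theorem natDegree_fX {N a b : ℕ} {u v : Fin N → k[X]} (e : k) (hu : ∀ i, (u i).natDegree ≤ a)
    (i : Fin N) : (fX e a b u v i).natDegree ≤ a + 1 := by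
  unfold fX fw
  refine (Polynomial.natDegree_add_le _ _).trans (max_le ((hu i).trans (by omega)) ?_)
  refine (Polynomial.natDegree_C_mul_le _ _).trans ?_
  rw [Polynomial.natDegree_neg]
  exact Polynomial.natDegree_C_mul_X_pow_le _ _

theorem natDegree_fZ {N a b ρ : ℕ} {u v : Fin N → k[X]} (e : k) (hρ : ρ + a + 1 = b)
    (hu : ∀ i, (u i).natDegree ≤ a) (hv : ∀ i, (v i).natDegree ≤ b)
    (i : Fin N) : (fZ e b ρ u v i).natDegree ≤ b - 1 := by
  unfold fZ
  refine (Polynomial.natDegree_add_le _ _).trans (max_le ?_ ?_)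
  · refine (Polynomial.natDegree_mul_le_of_le (Polynomial.natDegree_X_pow_le ρ) (hu i)).trans ?_
    omega
  · exact (Polynomial.natDegree_C_mul_le _ _).trans (natDegree_fy (by omega) hv i)

/-- The degrees of the parameters of the family. -/
theorem bd_new {N a b d ρ : ℕ} {u v : Fin N → k[X]} (e : k) (hρ : ρ + a + 1 = b) (hρ1 : 1 ≤ ρ)
    (hbd : 3 * b ≤ d + 1) (hu : ∀ i, (u i).natDegree ≤ a) (hv : ∀ i, (v i).natDegree ≤ b)
    {p : Fin 4 → k[X]} {r : Fin 3 → k[X]} {z : Fin 2 → k[X]} {c3 : k[X]}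
    (p0 : (p 0).natDegree + 1 ≤ ρ) (p1 : (p 1).natDegree + 1 ≤ ρ) (p2 : (p 2).natDegree + 1 ≤ ρ)
    (p3 : LE (3 * a + 3 * ρ) d (p 3)) (r0 : (r 0).natDegree + 1 ≤ ρ)
    (r1 : (r 1).natDegree + 1 ≤ ρ) (r2 : LE (2 * a + b + 2 * ρ) d (r 2))
    (z0 : (z 0).natDegree + 1 ≤ ρ) (z1 : LE (a + 2 * b + ρ) d (z 1)) (hc3 : LE (3 * b) d c3) :
    Bd (a + 1) (b - 1) d (fX e a b u v) (fZ e b ρ u v) (Qc (C e) (X ^ ρ) p r z c3) := by
  have small : ∀ {f : k[X]} {S : ℕ}, f.natDegree + 1 ≤ ρ → ρ + S ≤ d + 1 → LE S d f := by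
    intro f S hf hS _
    omega
  have hT2 : ((X : k[X]) ^ ρ) ^ 2 = X ^ (2 * ρ) := by rw [← pow_mul, mul_comm]
  have hT3 : ((X : k[X]) ^ ρ) ^ 3 = X ^ (3 * ρ) := by rw [← pow_mul, mul_comm]
  have n2 : (2 : k[X]).natDegree = 0 := Polynomial.natDegree_ofNat 2
  have n3 : (3 : k[X]).natDegree = 0 := Polynomial.natDegree_ofNat 3
  have n6 : (6 : k[X]).natDegree = 0 := Polynomial.natDegree_ofNat 6
  refine ⟨natDegree_fX e hu, natDegree_fZ e hρ hu hv, ?_⟩
  have q0 : LE (3 * (a + 1)) d (Qc (C e) (X ^ ρ) p r z c3 0) := by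
    show LE _ _ (6 * (C e ^ 3 * p 0 - 3 * C e ^ 2 * (X ^ ρ * r 0) +
      3 * C e * ((X ^ ρ) ^ 2 * z 0) - (X ^ ρ) ^ 3 * c3))
    rw [hT2, hT3]
    refine LE.cmul (((LE.cmul (small p0 (by omega)) (nd0 e)).sub (LE.cmul (LE.xmul
      (small r0 (S := 3 * (a + 1) + ρ) (by omega)) ρ le_rfl) (nd3 e))).add (LE.cmul (LE.xmul
      (small z0 (S := 3 * (a + 1) + 2 * ρ) (by omega)) (2 * ρ) le_rfl) (nd1 e)) |>.sub
      (LE.xmul hc3 (3 * ρ) (by omega))) n6
  have q1 : LE (2 * (a + 1) + (b - 1)) d (Qc (C e) (X ^ ρ) p r z c3 1) := by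
    show LE _ _ (2 * (C e ^ 3 * p 1 + 3 * C e ^ 2 * (r 0 - X ^ ρ * r 1) +
      3 * C e * ((X ^ ρ) ^ 2 * z 1 - 2 * (X ^ ρ * z 0)) + 3 * ((X ^ ρ) ^ 2 * c3)))
    rw [hT2]
    refine LE.cmul ((((LE.cmul (small p1 (by omega)) (nd0 e)).add (LE.cmul
      ((small r0 (by omega)).sub (LE.xmul (small r1 (S := 2 * (a + 1) + (b - 1) + ρ) (by omega)) ρ
      le_rfl)) (nd3 e))).add (LE.cmul ((LE.xmul z1 (2 * ρ) (by omega)).sub
      (LE.cmul (LE.xmul (small z0 (S := 2 * (a + 1) + (b - 1) + ρ) (by omega)) ρ le_rfl) n2))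
      (nd1 e))).add (LE.cmul (LE.xmul hc3 (2 * ρ) (by omega)) n3)) n2
  have q2 : LE ((a + 1) + 2 * (b - 1)) d (Qc (C e) (X ^ ρ) p r z c3 2) := by
    show LE _ _ (2 * (C e ^ 3 * p 2 + 3 * C e ^ 2 * (r 1 - X ^ ρ * r 2) +
      3 * C e * (z 0 - 2 * (X ^ ρ * z 1)) - 3 * (X ^ ρ * c3)))
    refine LE.cmul ((((LE.cmul (small p2 (by omega)) (nd0 e)).add (LE.cmul
      ((small r1 (by omega)).sub (LE.xmul r2 ρ (by omega))) (nd3 e))).add (LE.cmul
      ((small z0 (by omega)).sub (LE.cmul (LE.xmul z1 ρ (by omega)) n2)) (nd1 e))).sub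
      (LE.cmul (LE.xmul hc3 ρ (by omega)) n3)) n2
  have q3 : LE (3 * (b - 1)) d (Qc (C e) (X ^ ρ) p r z c3 3) := by
    show LE _ _ (6 * (C e ^ 3 * p 3 + 3 * C e ^ 2 * r 2 + 3 * C e * z 1 + c3))
    refine LE.cmul ((((LE.cmul (p3.mono (by omega)) (nd0 e)).add (LE.cmul (r2.mono (by omega))
      (nd3 e))).add (LE.cmul (z1.mono (by omega)) (nd1 e))).add (hc3.mono (by omega))) n6
  intro i hi
  fin_cases i
  · have := q0 hi
    show _ + (3 * (a + 1) + 0 * (b - 1)) ≤ d
    rw [zero_mul, add_zero]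
    exact this
  · have := q1 hi
    show _ + (2 * (a + 1) + 1 * (b - 1)) ≤ d
    rw [one_mul]
    exact this
  · have := q2 hi
    show _ + (1 * (a + 1) + 2 * (b - 1)) ≤ d
    rw [one_mul]
    exact this
  · have := q3 hi
    show _ + (0 * (a + 1) + 3 * (b - 1)) ≤ d
    rw [zero_mul, zero_add]
    exact this

theorem aeval_eval {κ : Type} (Ψ : κ → k[X]) (P : MvPolynomial κ k) (e : k) :
    (MvPolynomial.aeval Ψ P).eval e = MvPolynomial.eval (fun x => (Ψ x).eval e) P := by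
  have h : ((Polynomial.aeval e : k[X] →ₐ[k] k).comp (MvPolynomial.aeval Ψ)) =
      (MvPolynomial.aeval (fun x => (Ψ x).eval e) : MvPolynomial κ k →ₐ[k] k) := by
    apply MvPolynomial.algHom_ext
    intro i
    rw [AlgHom.comp_apply, MvPolynomial.aeval_X, MvPolynomial.aeval_X,
      Polynomial.coe_aeval_eq_eval]
  have h2 := congrArg (fun φ : MvPolynomial κ k →ₐ[k] k => φ P) h
  rw [← MvPolynomial.aeval_eq_eval]
  exact h2

theorem map_C_eval (f : k[X]) (e : k) : (f.map C).map (Polynomial.evalRingHom e) = f := by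
  rw [Polynomial.map_map]
  have : (Polynomial.evalRingHom e).comp (C : k →+* k[X]) = RingHom.id k := by
    ext x
    simp
  rw [this, Polynomial.map_id]

/-- The conditions of `Gd` in terms of the Plücker coordinates and the tensor. -/
theorem nz_of_gd {N a b d : ℕ} {u v : Fin N → k[X]} {c : Fin 4 → k[X]} (hB : Bd a b d u v c)
    (hG : Gd a b d u v c) : NZ (a + b) (wdg u v) ∧ NZ d (cub u v c) := by
  refine ⟨⟨fun t => ?_, ?_⟩, fun t => ?_, ?_⟩
  · obtain ⟨s, hs⟩ := Function.ne_iff.1 (hG.fin t)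
    refine ⟨s, ?_⟩
    rw [eval_wdg]
    exact hs
  · obtain ⟨s, hs⟩ := Function.ne_iff.1 hG.inf
    refine ⟨s, ?_⟩
    rw [coeff_wdg hB.hu hB.hv]
    exact hs
  · by_contra hcon
    push Not at hcon
    have h1 : cub (fun i => (u i).eval t) (fun i => (v i).eval t) (fun i => (c i).eval t) = 0 := by
      funext s
      rw [← eval_cub, hcon s]
      rfl
    obtain ⟨i, hi⟩ := hG.cfin t
    exact hi (cub_ne (hG.fin t) h1 i)
  · by_contra hcon
    push Not at hcon
    have h1 : cub (fun i => (u i).coeff a) (fun i => (v i).coeff b) (topc a b d c) = 0 := by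
      funext s
      rw [← coeff_cub hB, hcon s]
      rfl
    obtain ⟨i, hi, hi'⟩ := hG.cinf
    have h2 := cub_ne hG.inf h1 i
    unfold topc at h2
    rw [if_pos hi] at h2
    exact hi' h2

theorem gd_of_nz {N a b d : ℕ} {u v : Fin N → k[X]} {c : Fin 4 → k[X]} (hB : Bd a b d u v c)
    (h1 : NZ (a + b) (wdg u v)) (h2 : NZ d (cub u v c)) : Gd a b d u v c := by
  refine ⟨fun t h0 => ?_, fun h0 => ?_, fun t => ?_, ?_⟩
  · obtain ⟨s, hs⟩ := h1.1 t
    apply hs
    rw [eval_wdg, h0]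
    rfl
  · obtain ⟨s, hs⟩ := h1.2
    apply hs
    rw [coeff_wdg hB.hu hB.hv, h0]
    rfl
  · by_contra hcon
    push Not at hcon
    obtain ⟨s, hs⟩ := h2.1 t
    apply hs
    rw [eval_cub]
    simp [cub, hcon]
  · by_contra hcon
    push Not at hcon
    obtain ⟨s, hs⟩ := h2.2
    apply hs
    rw [coeff_cub hB]
    have h3 : ∀ i, topc a b d c i = 0 := by
      intro i
      unfold topc
      split_ifs with h
      · exact hcon i h
      · rfl
    simp [cub, h3]

theorem NZ.of_cmul {σ : Type} {n : ℕ} {f g : σ → k[X]} {a : k} (h : NZ n g)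
    (hfg : ∀ i, f i = C a * g i) (ha : a ≠ 0) : NZ n f := by
  refine ⟨fun t => ?_, ?_⟩
  · obtain ⟨i, hi⟩ := h.1 t
    refine ⟨i, ?_⟩
    rw [hfg, Polynomial.eval_mul, Polynomial.eval_C]
    exact mul_ne_zero ha hi
  · obtain ⟨i, hi⟩ := h.2
    refine ⟨i, ?_⟩
    rw [hfg, Polynomial.coeff_C_mul]
    exact mul_ne_zero ha hi

/-- The family. -/
theorem family {N a b d ρ : ℕ} {u v : Fin N → k[X]} {c : Fin 4 → k[X]} (hρ : ρ + a + 1 = b)
    (hρ1 : 1 ≤ ρ) (hbd : 3 * b ≤ d + 1) (hB : Bd a b d u v c) :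
    ∃ (p : Fin 4 → k[X]) (r : Fin 3 → k[X]) (z : Fin 2 → k[X]) (c3 : k[X]),
      (∀ t, fg 0 a b ρ u v p r z c3 t = C 6 * cub u v c t) ∧
      ∀ e : k, ∃ c' : Fin 4 → k[X], Bd (a + 1) (b - 1) d (fX e a b u v) (fZ e b ρ u v) c' ∧
        (∀ s, wdg (fX e a b u v) (fZ e b ρ u v) s = C e * fl e a b u v s) ∧
        ∀ t, cub (fX e a b u v) (fZ e b ρ u v) c' t = C (e ^ 3) * fg e a b ρ u v p r z c3 t := by
  obtain ⟨a1, p0, e1, h1, k1⟩ := div1 (c 0) hρ1
  obtain ⟨a2, p1, e2, h2, k2⟩ := div1 a1 hρ1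
  obtain ⟨p3, p2, e3, h3, k3⟩ := div1 a2 hρ1
  obtain ⟨b1, r0, e4, h4, k4⟩ := div1 (c 1) hρ1
  obtain ⟨r2, r1, e5, h5, k5⟩ := div1 b1 hρ1
  obtain ⟨z1, z0, e6, h6, k6⟩ := div1 (c 2) hρ1
  have hT : ∀ i, v i = fy b v i - X ^ ρ * fw a b v i := by
    intro i
    unfold fy fw
    have : (X : k[X]) ^ b = X ^ ρ * X ^ (a + 1) := by
      rw [← pow_add]
      congr 1
      omega
    rw [this]
    ring
  have l0 : LE (3 * a) d (c 0) := fun h => by
    have := hB.hc 0 h
    have e : (3 - ((0 : Fin 4) : ℕ)) * a + ((0 : Fin 4) : ℕ) * b = 3 * a := by simp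
    rw [e] at this
    exact this
  have l1 : LE (2 * a + b) d (c 1) := fun h => by
    have := hB.hc 1 h
    have e : (3 - ((1 : Fin 4) : ℕ)) * a + ((1 : Fin 4) : ℕ) * b = 2 * a + b := by simp
    rw [e] at this
    exact this
  have l2 : LE (a + 2 * b) d (c 2) := fun h => by
    have := hB.hc 2 h
    have e : (3 - ((2 : Fin 4) : ℕ)) * a + ((2 : Fin 4) : ℕ) * b = a + 2 * b := by simp
    rw [e] at this
    exact this
  have l3 : LE (3 * b) d (c 3) := fun h => by
    have := hB.hc 3 h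
    have e : (3 - ((3 : Fin 4) : ℕ)) * a + ((3 : Fin 4) : ℕ) * b = 3 * b := by simp
    rw [e] at this
    exact this
  have lp3 : LE (3 * a + 3 * ρ) d p3 := by
    have := k3 _ _ (k2 _ _ (k1 _ _ l0))
    exact this.mono (by omega)
  have lr2 : LE (2 * a + b + 2 * ρ) d r2 := (k5 _ _ (k4 _ _ l1)).mono (by omega)
  have lz1 : LE (a + 2 * b + ρ) d z1 := k6 _ _ l2
  refine ⟨![p0, p1, p2, p3], ![r0, r1, r2], ![z0, z1], c 3, ?_, fun e => ⟨Qc (C e) (X ^ ρ)
    ![p0, p1, p2, p3] ![r0, r1, r2] ![z0, z1] (c 3), bd_new e hρ hρ1 hbd hB.hu hB.hv h1 h2 h3 lp3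
    h4 h5 lr2 h6 lz1 l3, ?_, ?_⟩⟩
  · intro t
    have hX : fX 0 a b u v = u := by
      funext i
      unfold fX
      rw [C_0, zero_mul, add_zero]
    have hZ : ∀ i, fZ 0 b ρ u v i = X ^ ρ * u i := by
      intro i
      unfold fZ
      rw [C_0, zero_mul, add_zero]
    unfold fg
    rw [hX, key0 hZ, map_ofNat]
    congr 2
    funext i
    fin_cases i
    · show p0 + X ^ ρ * (p1 + X ^ ρ * (p2 + X ^ ρ * p3)) = c 0
      rw [← e3, ← e2, ← e1]
    · show r0 + X ^ ρ * (r1 + X ^ ρ * r2) = c 1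
      rw [← e5, ← e4]
    · show z0 + X ^ ρ * z1 = c 2
      rw [← e6]
    · rfl
  · intro s
    exact keyw (T := X ^ ρ) (fun i => rfl) (fun i => rfl) hT s
  · intro t
    rw [C_pow]
    refine key1 (fun i => ?_) _ _ _ _ t
    unfold fZ fX
    conv_rhs => rw [hT i]
    ring

end

theorem done : StmDeg := by
  classical
  intro k _ _ _ N e d a b hN hab hab2 hbd γ hγ
  have hinf : Infinite k := IsAlgClosed.instInfinite
  subst hab
  obtain ⟨u, v, c, hB, hG, hrep⟩ := hγ
  obtain ⟨ρ, hρ⟩ : ∃ ρ, ρ + a + 1 = b := ⟨b - a - 1, by omega⟩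
  have hρ1 : 1 ≤ ρ := by omega
  obtain ⟨p, r, z, c3, h0, hfam⟩ := family hρ hρ1 hbd hB
  obtain ⟨n1, n2⟩ := nz_of_gd hB hG
  have six : (6 : k) ≠ 0 := by norm_num
  have n2' : NZ d (fg 0 a b ρ u v p r z c3) := n2.of_cmul h0 six
  have hl0 : ∀ s, fl 0 a b u v s = wdg u v s := by
    intro s
    unfold fl
    rw [C_0, zero_mul, add_zero]
  have hl0' : fl 0 a b u v = wdg u v := funext hl0
  have hg0 : ∀ t, (fg 0 a b ρ u v p r z c3 t).natDegree ≤ d := by
    intro t
    rw [h0]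
    exact (Polynomial.natDegree_C_mul_le _ _).trans (natDegree_cub hB t)
  obtain ⟨m1, P1, _, hP1, hP1'⟩ := open_cond (n := a + b) (by omega) (wdg u v)
    (natDegree_wdg hB.hu hB.hv) n1
  obtain ⟨m2, P2, _, hP2, hP2'⟩ := open_cond (n := d) (by omega) (fg 0 a b ρ u v p r z c3) hg0 n2'
  rw [mem_closure_iff']
  intro m P hP hvan
  -- the families over the polynomial ring
  set u' : Fin N → k[X][X] := fun i => (u i).map C with hu'
  set v' : Fin N → k[X][X] := fun i => (v i).map C with hv'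
  set p' : Fin 4 → k[X][X] := fun i => (p i).map C with hp'
  set r' : Fin 3 → k[X][X] := fun i => (r i).map C with hr'
  set z' : Fin 2 → k[X][X] := fun i => (z i).map C with hz'
  set L : Sg N → k[X][X] := fl X a b u' v' with hL
  set G : Ta N → k[X][X] := fg X a b ρ u' v' p' r' z' (c3.map C) with hGd
  have hLe : ∀ (ε : k) s (n : ℕ), ((L s).coeff n).eval ε = (fl ε a b u v s).coeff n := by
    intro ε s n
    have h1 : (L s).map (Polynomial.evalRingHom ε) = fl ε a b u v s := by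
      rw [hL, map_fl]
      simp only [hu', hv', map_C_eval, Polynomial.coe_evalRingHom, Polynomial.eval_X]
    rw [← h1, Polynomial.coeff_map, Polynomial.coe_evalRingHom]
  have hGe : ∀ (ε : k) t (n : ℕ), ((G t).coeff n).eval ε =
      (fg ε a b ρ u v p r z c3 t).coeff n := by
    intro ε t n
    have h1 : (G t).map (Polynomial.evalRingHom ε) = fg ε a b ρ u v p r z c3 t := by
      rw [hGd, map_fg]
      simp only [hu', hv', hp', hr', hz', map_C_eval, Polynomial.coe_evalRingHom,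
        Polynomial.eval_X]
    rw [← h1, Polynomial.coeff_map, Polynomial.coe_evalRingHom]
  let Ψ : (Sg N × Fin (a + b + 1)) × (Ta N × Fin (d + 1)) → k[X] :=
    fun x => (L x.1.1).coeff x.1.2 * (G x.2.1).coeff x.2.2
  let Q : k[X] := MvPolynomial.aeval Ψ P
  let Q1 : k[X] := MvPolynomial.aeval (fun x : Sg N × Fin (a + b + 1) => (L x.1).coeff x.2) P1
  let Q2 : k[X] := MvPolynomial.aeval (fun x : Ta N × Fin (d + 1) => (G x.1).coeff x.2) P2
  have eQ : ∀ ε, Q.eval ε = MvPolynomial.eval (fun x => (fl ε a b u v x.1.1).coeff x.1.2 *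
      (fg ε a b ρ u v p r z c3 x.2.1).coeff x.2.2) P := by
    intro ε
    show (MvPolynomial.aeval Ψ P).eval ε = _
    rw [aeval_eval]
    simp only [Ψ, Polynomial.eval_mul, hLe, hGe]
  have eQ1 : ∀ ε, Q1.eval ε = MvPolynomial.eval (fun x => (fl ε a b u v x.1).coeff x.2) P1 := by
    intro ε
    show (MvPolynomial.aeval (fun x : Sg N × Fin (a + b + 1) => (L x.1).coeff x.2) P1).eval ε = _
    rw [aeval_eval]
    simp only [hLe]
  have eQ2 : ∀ ε, Q2.eval ε =
      MvPolynomial.eval (fun x => (fg ε a b ρ u v p r z c3 x.1).coeff x.2) P2 := by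
    intro ε
    show (MvPolynomial.aeval (fun x : Ta N × Fin (d + 1) => (G x.1).coeff x.2) P2).eval ε = _
    rw [aeval_eval]
    simp only [hGe]
  have hQ1 : Q1 ≠ 0 := by
    intro h
    apply hP1
    rw [← hl0', ← eQ1 0, h, Polynomial.eval_zero]
  have hQ2 : Q2 ≠ 0 := by
    intro h
    apply hP2
    rw [← eQ2 0, h, Polynomial.eval_zero]
  have hmain : ∀ ε : k, ε ≠ 0 → Q1.eval ε ≠ 0 → Q2.eval ε ≠ 0 → Q.eval ε = 0 := by
    intro ε hε h1 h2
    obtain ⟨c', hB', hw, hc⟩ := hfam ε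
    have hε3 : ε ^ 3 ≠ 0 := pow_ne_zero 3 hε
    have hsum : a + 1 + (b - 1) = a + b := by omega
    have dl : ∀ s, (fl ε a b u v s).natDegree ≤ a + b := by
      intro s
      have h3 := natDegree_wdg hB'.hu hB'.hv s
      rw [hw, Polynomial.natDegree_C_mul hε, hsum] at h3
      exact h3
    have dg : ∀ t, (fg ε a b ρ u v p r z c3 t).natDegree ≤ d := by
      intro t
      have h3 := natDegree_cub hB' t
      rw [hc, Polynomial.natDegree_C_mul hε3] at h3
      exact h3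
    have nl : NZ (a + b) (fl ε a b u v) := by
      by_contra hcon
      exact h1 (by rw [eQ1]; exact hP1' _ dl hcon)
    have ng : NZ d (fg ε a b ρ u v p r z c3) := by
      by_contra hcon
      exact h2 (by rw [eQ2]; exact hP2' _ dg hcon)
    have hG' : Gd (a + 1) (b - 1) d (fX ε a b u v) (fZ ε b ρ u v) c' :=
      gd_of_nz hB' (by rw [hsum]; exact nl.of_cmul hw hε) (ng.of_cmul hc hε3)
    have hcv : cv (a + b) d (fX ε a b u v) (fZ ε b ρ u v) c' = (ε ^ 4) • fun x =>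
        (fl ε a b u v x.1.1).coeff x.1.2 * (fg ε a b ρ u v p r z c3 x.2.1).coeff x.2.2 := by
      funext x
      unfold cv
      rw [hw, hc, Pi.smul_apply, smul_eq_mul, Polynomial.coeff_C_mul, Polynomial.coeff_C_mul]
      ring
    have hne : cv (a + b) d (fX ε a b u v) (fZ ε b ρ u v) c' ≠ 0 := by
      obtain ⟨s, hs⟩ := nl.2
      obtain ⟨t, ht⟩ := ng.2
      intro h3
      rw [hcv] at h3
      have h4 := congrFun h3 ((s, Fin.last (a + b)), (t, Fin.last d))
      rw [Pi.smul_apply, smul_eq_mul] at h4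
      exact (mul_ne_zero (pow_ne_zero 4 hε) (mul_ne_zero hs ht)) h4
    obtain ⟨q, hq⟩ := exists_rep hne
    have h5 := hvan q ⟨_, _, c', hB', hG', hq⟩
    rw [← zero_iff hq hP, hcv, eval_smul_homog hP] at h5
    rw [eQ]
    exact (mul_eq_zero.1 h5).resolve_left (pow_ne_zero _ (pow_ne_zero _ hε))
  have hprod : Q * (Q1 * (Q2 * X)) = 0 := by
    apply Polynomial.funext
    intro ε
    rw [Polynomial.eval_mul, Polynomial.eval_mul, Polynomial.eval_mul, Polynomial.eval_X,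
      Polynomial.eval_zero]
    by_cases hε : ε = 0
    · rw [hε]
      ring
    by_cases h1 : Q1.eval ε = 0
    · rw [h1]
      ring
    by_cases h2 : Q2.eval ε = 0
    · rw [h2]
      ring
    rw [hmain ε hε h1 h2, zero_mul]
  have hQ : Q = 0 := (mul_eq_zero.1 hprod).resolve_right
    (mul_ne_zero hQ1 (mul_ne_zero hQ2 Polynomial.X_ne_zero))
  have h6 := eQ 0
  rw [hQ, Polynomial.eval_zero] at h6
  have h7 : (fun x : (Sg N × Fin (a + b + 1)) × (Ta N × Fin (d + 1)) =>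
      (fl 0 a b u v x.1.1).coeff x.1.2 * (fg 0 a b ρ u v p r z c3 x.2.1).coeff x.2.2) =
      (6 : k) • cv (a + b) d u v c := by
    funext x
    unfold cv
    rw [hl0, h0, Pi.smul_apply, smul_eq_mul, Polynomial.coeff_C_mul]
    ring
  rw [h7] at h6
  exact (zero_iff (hrep.smul six) hP).1 h6.symm

end Pool.Agent.Y762.MC
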