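import Pool.Agent.Y198.MC.Stm

/-!
# Degenerations of the splitting type: identities and degrees
-/

set_option autoImplicit false
set_option linter.unusedSectionVars false
set_option linter.deprecated false

namespace Pool.Agent.Y762.MC

open Pool.Agent.Y198.MC

section
variable {A : Type} [CommRing A] {N : ℕ}

/-- The symmetrised product of three vectors. -/
def S3 (x y z : Fin N → A) : Ta N → A := fun t =>
  x t.1 * y t.2.1 * z t.2.2 + x t.1 * z t.2.1 * y t.2.2 + y t.1 * x t.2.1 * z t.2.2 +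
    y t.1 * z t.2.1 * x t.2.2 + z t.1 * x t.2.1 * y t.2.2 + z t.1 * y t.2.1 * x t.2.2

/-- The cubic tensor of the family. -/
def Gx (X Z Y : Fin N → A) (p : Fin 4 → A) (r : Fin 3 → A) (z : Fin 2 → A) (c3 : A) : Ta N → A :=
  fun t => p 0 * S3 X X X t + p 1 * S3 X X Z t + p 2 * S3 X Z Z t + p 3 * S3 Z Z Z t +
    3 * (r 0 * S3 X X Y t + r 1 * S3 X Z Y t + r 2 * S3 Z Z Y t) +
    3 * (z 0 * S3 X Y Y t + z 1 * S3 Z Y Y t) + c3 * S3 Y Y Y t

/-- The coefficients of this tensor in the basis `X`, `Z`. -/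
def Qc (ε T : A) (p : Fin 4 → A) (r : Fin 3 → A) (z : Fin 2 → A) (c3 : A) : Fin 4 → A :=
  ![6 * (ε ^ 3 * p 0 - 3 * ε ^ 2 * (T * r 0) + 3 * ε * (T ^ 2 * z 0) - T ^ 3 * c3),
    2 * (ε ^ 3 * p 1 + 3 * ε ^ 2 * (r 0 - T * r 1) + 3 * ε * (T ^ 2 * z 1 - 2 * (T * z 0)) +
      3 * (T ^ 2 * c3)),
    2 * (ε ^ 3 * p 2 + 3 * ε ^ 2 * (r 1 - T * r 2) + 3 * ε * (z 0 - 2 * (T * z 1)) -
      3 * (T * c3)),
    6 * (ε ^ 3 * p 3 + 3 * ε ^ 2 * r 2 + 3 * ε * z 1 + c3)]

theorem key1 {ε T : A} {X Z Y : Fin N → A} (hY : ∀ i, Z i = ε * Y i + T * X i) (p : Fin 4 → A)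
    (r : Fin 3 → A) (z : Fin 2 → A) (c3 : A) (t : Ta N) :
    cub X Z (Qc ε T p r z c3) t = ε ^ 3 * Gx X Z Y p r z c3 t := by
  obtain ⟨i, j, l⟩ := t
  simp only [cub, Qc, Gx, S3, Matrix.cons_val_zero, Matrix.cons_val_one, Matrix.cons_val]
  rw [hY i, hY j, hY l]
  ring

theorem key0 {T : A} {u v Z : Fin N → A} (hZ : ∀ i, Z i = T * u i) (p : Fin 4 → A)
    (r : Fin 3 → A) (z : Fin 2 → A) (c3 : A) (t : Ta N) :
    Gx u Z v p r z c3 t = 6 * cub u v ![p 0 + T * (p 1 + T * (p 2 + T * p 3)),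
      r 0 + T * (r 1 + T * r 2), z 0 + T * z 1, c3] t := by
  obtain ⟨i, j, l⟩ := t
  simp only [cub, Gx, S3, Matrix.cons_val_zero, Matrix.cons_val_one, Matrix.cons_val]
  rw [hZ i, hZ j, hZ l]
  ring

theorem keyw {ε T : A} {X Z u v w y : Fin N → A} (hX : ∀ i, X i = u i + ε * w i)
    (hZ : ∀ i, Z i = T * u i + ε * y i) (hv : ∀ i, v i = y i - T * w i) (s : Sg N) :
    wdg X Z s = ε * (wdg u v s + ε * wdg w y s) := by
  obtain ⟨i, j⟩ := s
  simp only [wdg]
  rw [hX i, hX j, hZ i, hZ j, hv i, hv j]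
  ring

/-- A nonzero cubic form in a basis of a plane gives a nonzero tensor. -/
theorem cub_ne {k : Type} [Field k] {u v : Fin N → k} {c : Fin 4 → k} (h : wdg u v ≠ 0)
    (hc : cub u v c = 0) : ∀ i, c i = 0 := by
  obtain ⟨⟨i, j⟩, hij⟩ := Function.ne_iff.1 h
  have hd : u i * v j - v i * u j ≠ 0 := hij
  have g : ∀ a b c', cub u v c (a, b, c') = 0 := fun a b c' => congrFun hc _
  have g1 := g i i i
  have g2 := g i i j
  have g3 := g i j j
  have g4 := g j j j
  simp only [cub] at g1 g2 g3 g4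
  have hd3 := pow_ne_zero 3 hd
  have e0 : (u i * v j - v i * u j) ^ 3 * c 0 = 0 := by
    linear_combination v j ^ 3 * g1 - 3 * v j ^ 2 * v i * g2 + 3 * v j * v i ^ 2 * g3 -
      v i ^ 3 * g4
  have e1 : (u i * v j - v i * u j) ^ 3 * c 1 = 0 := by
    linear_combination (-u j * v j ^ 2) * g1 + (u i * v j ^ 2 + 2 * u j * v j * v i) * g2 -
      (2 * u i * v j * v i + u j * v i ^ 2) * g3 + u i * v i ^ 2 * g4
  have e2 : (u i * v j - v i * u j) ^ 3 * c 2 = 0 := by
    linear_combination (u j ^ 2 * v j) * g1 - (2 * u i * u j * v j + u j ^ 2 * v i) * g2 +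
      (u i ^ 2 * v j + 2 * u i * u j * v i) * g3 - u i ^ 2 * v i * g4
  have e3 : (u i * v j - v i * u j) ^ 3 * c 3 = 0 := by
    linear_combination (-u j ^ 3) * g1 + 3 * u i * u j ^ 2 * g2 - 3 * u i ^ 2 * u j * g3 +
      u i ^ 3 * g4
  intro m
  fin_cases m
  · exact (mul_eq_zero.1 e0).resolve_left hd3
  · exact (mul_eq_zero.1 e1).resolve_left hd3
  · exact (mul_eq_zero.1 e2).resolve_left hd3
  · exact (mul_eq_zero.1 e3).resolve_left hd3

end

section
variable {A : Type} [CommRing A] {N : ℕ}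

open Polynomial

/-- The leading coefficients. -/
noncomputable def topc (a b d : ℕ) (c : Fin 4 → A[X]) (i : Fin 4) : A :=
  if (3 - (i : ℕ)) * a + i * b ≤ d then (c i).coeff (d - ((3 - (i : ℕ)) * a + i * b)) else 0

theorem coeff_top4 {a₁ a₂ a₃ d : ℕ} {c x y z : A[X]} (hx : x.natDegree ≤ a₁)
    (hy : y.natDegree ≤ a₂) (hz : z.natDegree ≤ a₃)
    (hc : c ≠ 0 → c.natDegree + (a₁ + a₂ + a₃) ≤ d) :
    (c * (x * y * z)).coeff d = (if a₁ + a₂ + a₃ ≤ d then c.coeff (d - (a₁ + a₂ + a₃)) else 0) *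
      (x.coeff a₁ * y.coeff a₂ * z.coeff a₃) := by
  by_cases h : c = 0
  · rw [h, zero_mul, Polynomial.coeff_zero, Polynomial.coeff_zero]
    simp
  · have h1 := hc h
    rw [if_pos (by omega)]
    have h2 : (c * (x * y * z)).coeff ((d - (a₁ + a₂ + a₃)) + (a₁ + a₂ + a₃)) = _ :=
      Polynomial.coeff_mul_add_eq_of_natDegree_le (by omega)
        (Polynomial.natDegree_mul_le_of_le (Polynomial.natDegree_mul_le_of_le hx hy) hz)
    rw [Nat.sub_add_cancel (by omega), Polynomial.coeff_mul_add_eq_of_natDegree_le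
      (Polynomial.natDegree_mul_le_of_le hx hy) hz, Polynomial.coeff_mul_add_eq_of_natDegree_le hx hy]
      at h2
    exact h2

theorem coeff_cub {a b d : ℕ} {u v : Fin N → A[X]} {c : Fin 4 → A[X]} (h : Bd a b d u v c)
    (t : Ta N) : (cub u v c t).coeff d =
      cub (fun i => (u i).coeff a) (fun i => (v i).coeff b) (topc a b d c) t := by
  obtain ⟨i, j, l⟩ := t
  have hc0 : c 0 ≠ 0 → (c 0).natDegree + (3 * a + 0 * b) ≤ d := h.hc 0
  have hc1 : c 1 ≠ 0 → (c 1).natDegree + (2 * a + 1 * b) ≤ d := h.hc 1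
  have hc2 : c 2 ≠ 0 → (c 2).natDegree + (1 * a + 2 * b) ≤ d := h.hc 2
  have hc3 : c 3 ≠ 0 → (c 3).natDegree + (0 * a + 3 * b) ≤ d := h.hc 3
  have e0 : topc a b d c 0 = if a + a + a ≤ d then (c 0).coeff (d - (a + a + a)) else 0 := by
    show (if 3 * a + 0 * b ≤ d then (c 0).coeff (d - (3 * a + 0 * b)) else 0) = _
    rw [show 3 * a + 0 * b = a + a + a by ring]
  have e1 : topc a b d c 1 = if a + a + b ≤ d then (c 1).coeff (d - (a + a + b)) else 0 := by
    show (if 2 * a + 1 * b ≤ d then (c 1).coeff (d - (2 * a + 1 * b)) else 0) = _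
    rw [show 2 * a + 1 * b = a + a + b by ring]
  have e2 : topc a b d c 2 = if a + b + b ≤ d then (c 2).coeff (d - (a + b + b)) else 0 := by
    show (if 1 * a + 2 * b ≤ d then (c 2).coeff (d - (1 * a + 2 * b)) else 0) = _
    rw [show 1 * a + 2 * b = a + b + b by ring]
  have e3 : topc a b d c 3 = if b + b + b ≤ d then (c 3).coeff (d - (b + b + b)) else 0 := by
    show (if 0 * a + 3 * b ≤ d then (c 3).coeff (d - (0 * a + 3 * b)) else 0) = _
    rw [show 0 * a + 3 * b = b + b + b by ring]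
  have aba : a + b + a = a + a + b := by ring
  have baa : b + a + a = a + a + b := by ring
  have bab : b + a + b = a + b + b := by ring
  have bba : b + b + a = a + b + b := by ring
  simp only [cub, mul_add, Polynomial.coeff_add]
  rw [coeff_top4 (h.hu i) (h.hu j) (h.hu l) (fun h' => by have := hc0 h'; omega),
    coeff_top4 (h.hu i) (h.hu j) (h.hv l) (fun h' => by have := hc1 h'; omega),
    coeff_top4 (h.hu i) (h.hv j) (h.hu l) (fun h' => by have := hc1 h'; omega),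
    coeff_top4 (h.hv i) (h.hu j) (h.hu l) (fun h' => by have := hc1 h'; omega),
    coeff_top4 (h.hu i) (h.hv j) (h.hv l) (fun h' => by have := hc2 h'; omega),
    coeff_top4 (h.hv i) (h.hu j) (h.hv l) (fun h' => by have := hc2 h'; omega),
    coeff_top4 (h.hv i) (h.hv j) (h.hu l) (fun h' => by have := hc2 h'; omega),
    coeff_top4 (h.hv i) (h.hv j) (h.hv l) (fun h' => by have := hc3 h'; omega),
    e0, e1, e2, e3, aba, baa, bab, bba]

theorem natDegree_term {a₁ a₂ a₃ d : ℕ} {c x y z : A[X]} (hx : x.natDegree ≤ a₁)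
    (hy : y.natDegree ≤ a₂) (hz : z.natDegree ≤ a₃)
    (hc : c ≠ 0 → c.natDegree + (a₁ + a₂ + a₃) ≤ d) :
    (c * (x * y * z)).natDegree ≤ d := by
  by_cases h : c = 0
  · rw [h, zero_mul, Polynomial.natDegree_zero]
    exact Nat.zero_le _
  · exact (Polynomial.natDegree_mul_le_of_le le_rfl
      (Polynomial.natDegree_mul_le_of_le (Polynomial.natDegree_mul_le_of_le hx hy) hz)).trans (hc h)

theorem natDegree_cub {a b d : ℕ} {u v : Fin N → A[X]} {c : Fin 4 → A[X]} (h : Bd a b d u v c)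
    (t : Ta N) : (cub u v c t).natDegree ≤ d := by
  obtain ⟨i, j, l⟩ := t
  have hc0 : c 0 ≠ 0 → (c 0).natDegree + (3 * a + 0 * b) ≤ d := h.hc 0
  have hc1 : c 1 ≠ 0 → (c 1).natDegree + (2 * a + 1 * b) ≤ d := h.hc 1
  have hc2 : c 2 ≠ 0 → (c 2).natDegree + (1 * a + 2 * b) ≤ d := h.hc 2
  have hc3 : c 3 ≠ 0 → (c 3).natDegree + (0 * a + 3 * b) ≤ d := h.hc 3
  simp only [cub, mul_add]
  have t1 := natDegree_term (d := d) (c := c 0) (h.hu i) (h.hu j) (h.hu l)
    (fun h' => by have := hc0 h'; omega)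
  have t2 := natDegree_term (d := d) (c := c 1) (h.hu i) (h.hu j) (h.hv l)
    (fun h' => by have := hc1 h'; omega)
  have t3 := natDegree_term (d := d) (c := c 1) (h.hu i) (h.hv j) (h.hu l)
    (fun h' => by have := hc1 h'; omega)
  have t4 := natDegree_term (d := d) (c := c 1) (h.hv i) (h.hu j) (h.hu l)
    (fun h' => by have := hc1 h'; omega)
  have t5 := natDegree_term (d := d) (c := c 2) (h.hu i) (h.hv j) (h.hv l)
    (fun h' => by have := hc2 h'; omega)
  have t6 := natDegree_term (d := d) (c := c 2) (h.hv i) (h.hu j) (h.hv l)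
    (fun h' => by have := hc2 h'; omega)
  have t7 := natDegree_term (d := d) (c := c 2) (h.hv i) (h.hv j) (h.hu l)
    (fun h' => by have := hc2 h'; omega)
  have t8 := natDegree_term (d := d) (c := c 3) (h.hv i) (h.hv j) (h.hv l)
    (fun h' => by have := hc3 h'; omega)
  exact Polynomial.natDegree_add_le_of_degree_le (Polynomial.natDegree_add_le_of_degree_le
    (Polynomial.natDegree_add_le_of_degree_le t1 (Polynomial.natDegree_add_le_of_degree_le
    (Polynomial.natDegree_add_le_of_degree_le t2 t3) t4))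
    (Polynomial.natDegree_add_le_of_degree_le (Polynomial.natDegree_add_le_of_degree_le t5 t6) t7))
    t8

theorem coeff_wdg {a b : ℕ} {u v : Fin N → A[X]} (hu : ∀ i, (u i).natDegree ≤ a)
    (hv : ∀ i, (v i).natDegree ≤ b) (s : Sg N) : (wdg u v s).coeff (a + b) =
      wdg (fun i => (u i).coeff a) (fun i => (v i).coeff b) s := by
  obtain ⟨i, j⟩ := s
  simp only [wdg, Polynomial.coeff_sub]
  rw [Polynomial.coeff_mul_add_eq_of_natDegree_le (hu i) (hv j), add_comm a b,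
    Polynomial.coeff_mul_add_eq_of_natDegree_le (hv i) (hu j)]

theorem natDegree_wdg {a b : ℕ} {u v : Fin N → A[X]} (hu : ∀ i, (u i).natDegree ≤ a)
    (hv : ∀ i, (v i).natDegree ≤ b) (s : Sg N) : (wdg u v s).natDegree ≤ a + b := by
  obtain ⟨i, j⟩ := s
  refine (Polynomial.natDegree_sub_le _ _).trans (max_le
    (Polynomial.natDegree_mul_le_of_le (hu i) (hv j)) ?_)
  rw [add_comm a b]
  exact Polynomial.natDegree_mul_le_of_le (hv i) (hu j)

theorem eval_wdg (u v : Fin N → A[X]) (t : A) (s : Sg N) : (wdg u v s).eval t =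
    wdg (fun i => (u i).eval t) (fun i => (v i).eval t) s := by
  simp [wdg]

theorem eval_cub (u v : Fin N → A[X]) (c : Fin 4 → A[X]) (t : A) (s : Ta N) :
    (cub u v c s).eval t =
    cub (fun i => (u i).eval t) (fun i => (v i).eval t) (fun i => (c i).eval t) s := by
  simp [cub]

end

end Pool.Agent.Y762.MC
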